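import Mathlib
import Pool.Agent.R973.MX.Base

/-!
# Circle graphs: the layer lemma (helper973)

Families of chords with pairwise distinct endpoints.
-/

set_option autoImplicit false

namespace Pool.Agent.R973.MX

open Relation

/-- distinct endpoints -/
def Di (F : Finset Ed) : Prop :=
  ∀ e ∈ F, ∀ f ∈ F, (e.1 = f.1 → e = f) ∧ (e.2 = f.2 → e = f) ∧ e.1 ≠ f.2

def Wf (F : Finset Ed) : Prop := ∀ e ∈ F, e.1 < e.2

lemma Di.mono {F K : Finset Ed} (h : Di F) (hK : K ⊆ F) : Di K :=
  fun e he f hf => h e (hK he) f (hK hf)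

lemma Wf.mono {F K : Finset Ed} (h : Wf F) (hK : K ⊆ F) : Wf K :=
  fun e he => h e (hK he)

/-- the crossing graph of `F` is `N`-colourable -/
def Cl (F : Finset Ed) (N : ℕ) : Prop :=
  ∃ c : Ed → ℕ, (∀ e ∈ F, c e < N) ∧ ∀ e ∈ F, ∀ f ∈ F, Cr e f → c e ≠ c f

lemma Cl.mono {F K : Finset Ed} {N M : ℕ} (h : Cl F N) (hK : K ⊆ F) (hNM : N ≤ M) : Cl K M := by
  obtain ⟨c, h1, h2⟩ := h
  exact ⟨c, fun e he => lt_of_lt_of_le (h1 e (hK he)) hNM, fun e he f hf => h2 e (hK he) f (hK hf)⟩

/-- every member of `K` is crossed by a member of `F` that leaves the hull of `K` -/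
def Ext (K F : Finset Ed) : Prop :=
  ∀ e ∈ K, ∃ J ∈ F, (e.1 < J.1 ∧ J.1 < e.2 ∧ ∀ f ∈ K, f.2 < J.2) ∨
    (e.1 < J.2 ∧ J.2 < e.2 ∧ ∀ f ∈ K, J.1 < f.1)

section

variable (F : Finset Ed)

/-- adjacency in the crossing graph -/
def adj (e f : Ed) : Prop := e ∈ F ∧ f ∈ F ∧ (Cr e f ∨ Cr f e)

lemma adj_symm {e f : Ed} (h : adj F e f) : adj F f e := ⟨h.2.1, h.1, h.2.2.symm⟩

def root (e : Ed) : Prop := e ∈ F ∧ ∀ u, ReflTransGen (adj F) e u → e.1 ≤ u.1

def Ball : ℕ → Ed → Prop
  | 0, e => root F e
  | n + 1, e => Ball n e ∨ ∃ u, Ball n u ∧ adj F u e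

lemma rtg_symm {e f : Ed} (h : ReflTransGen (adj F) e f) : ReflTransGen (adj F) f e :=
  by
  induction h with
  | refl => exact ReflTransGen.refl
  | tail _ hbc ih => exact ReflTransGen.head (adj_symm F hbc) ih

lemma rtg_mem {e f : Ed} (he : e ∈ F) (h : ReflTransGen (adj F) e f) : f ∈ F := by
  induction h with
  | refl => exact he
  | tail _ h _ => exact h.2.1

lemma exists_ball {e : Ed} (he : e ∈ F) : ∃ n, Ball F n e := by
  classical
  obtain ⟨r, hr, hmin⟩ := Finset.exists_min_image (F.filter (fun u => ReflTransGen (adj F) e u))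
    (fun u => u.1) ⟨e, by simp [he, ReflTransGen.refl]⟩
  rw [Finset.mem_filter] at hr
  have hroot : root F r := by
    refine ⟨hr.1, fun u hu => ?_⟩
    have : ReflTransGen (adj F) e u := hr.2.trans hu
    exact hmin u (by simp [rtg_mem F he this, this])
  have hre := rtg_symm F hr.2
  clear hr hmin
  induction hre with
  | refl => exact ⟨0, hroot⟩
  | tail hab hbc ih =>
      obtain ⟨n, hn⟩ := ih hbc.1
      exact ⟨n + 1, Or.inr ⟨_, hn, hbc⟩⟩

noncomputable def dd (e : Ed) : ℕ := sInf {n | Ball F n e}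

lemma ball_dd {e : Ed} (he : e ∈ F) : Ball F (dd F e) e := Nat.sInf_mem (exists_ball F he)

lemma dd_le {e : Ed} {n : ℕ} (h : Ball F n e) : dd F e ≤ n := Nat.sInf_le h

lemma dd_adj {u v : Ed} (h : adj F u v) : dd F v ≤ dd F u + 1 :=
  dd_le F (Or.inr ⟨u, ball_dd F h.1, h⟩)

lemma dd_pred {v : Ed} {n : ℕ} (hv : v ∈ F) (h : dd F v = n + 1) : ∃ u, adj F u v ∧ dd F u = n := by
  have h1 := ball_dd F hv
  rw [h] at h1
  rcases h1 with h1 | ⟨u, h1, h2⟩
  · have := dd_le F h1; omega
  · refine ⟨u, h2, ?_⟩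
    have h3 := dd_le F h1
    have h4 := dd_adj F h2
    omega

lemma dd_zero {v : Ed} (hv : v ∈ F) (h : dd F v = 0) : root F v := by
  have h1 := ball_dd F hv
  rw [h] at h1
  exact h1

lemma Cr_irrefl (e : Ed) : ¬ Cr e e := fun h => lt_irrefl _ h.1

/-- crossing graph restricted to equal layers -/
def HG : SimpleGraph Ed where
  Adj e f := adj F e f ∧ dd F e = dd F f
  symm := ⟨fun e f h => ⟨adj_symm F h.1, h.2.symm⟩⟩
  loopless := ⟨fun e h => by rcases h.1.2.2 with h' | h' <;> exact Cr_irrefl e h'⟩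

variable {F}

lemma HG_prop {p : Ed → Prop} (hp : ∀ u v, (HG F).Adj u v → p u → p v) {e f : Ed}
    (h : (HG F).Reachable e f) (he : p e) : p f := by
  obtain ⟨w⟩ := h
  induction w with
  | nil => exact he
  | cons hadj _ ih => exact ih (hp _ _ hadj he)

/-- key claim: a chord with exactly one endpoint in the hull of a layer component crosses it -/
lemma key_claim (hF : Wf F) {K : Finset Ed} (hK : K ⊆ F)
    (hconn : ∀ e ∈ K, ∀ f ∈ K, (HG F).Reachable e f) {ex ey : Ed} (hex : ex ∈ K) (hey : ey ∈ K)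
    {z : ℕ} (hz1 : ex.1 < z) (hz2 : z < ey.2)
    (hz : ∀ f ∈ K, z ≠ f.1 ∧ z ≠ f.2)
    (hmem : ∀ e ∈ K, ∀ f, (HG F).Reachable e f → f ∈ K) :
    ∃ f ∈ K, f.1 < z ∧ z < f.2 := by
  by_contra hcon
  push Not at hcon
  have hp : ∀ u v, (HG F).Adj u v → (u ∈ K ∧ u.2 < z) → (v ∈ K ∧ v.2 < z) := by
    intro u v huv hu
    have hvK : v ∈ K := hmem u hu.1 v huv.reachable
    refine ⟨hvK, ?_⟩
    by_contra hv
    have hzv := hz v hvK
    have h1 : z < v.1 := by
      rcases Nat.lt_or_ge v.1 z with h | h
      · have := hcon v hvK h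
        omega
      · omega
    have hwu := hF u (hK hu.1)
    have hwv := hF v (hK hvK)
    rcases huv.1.2.2 with h | h
    · have := h.2.1; omega
    · have := h.1; omega
  have hex2 : ex.2 < z := by
    have h1 := hcon ex hex hz1
    have h2 := (hz ex hex).2
    omega
  have := HG_prop hp (hconn ex hex ey hey) ⟨hex, hex2⟩
  omega

end

theorem layer (F : Finset Ed) (hF : Wf F) (hD : Di F) (N : ℕ) (hN : 1 ≤ N) (h : ¬ Cl F (2 * N)) :
    ∃ K, K ⊆ F ∧ ¬ Cl K N ∧ Ext K F := by
  classical
  -- find a bad component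
  have hcomp : ∃ c : (HG F).ConnectedComponent,
      ¬ Cl (F.filter (fun e => (HG F).connectedComponentMk e = c)) N := by
    by_contra hcon
    push Not at hcon
    choose col h1 h2 using hcon
    apply h
    refine ⟨fun e => (dd F e % 2) * N + col ((HG F).connectedComponentMk e) e, ?_, ?_⟩
    · intro e he
      have h3 := h1 ((HG F).connectedComponentMk e) e (by simp [he])
      have h4 : dd F e % 2 < 2 := Nat.mod_lt _ (by norm_num)
      have h5 : dd F e % 2 * N ≤ 1 * N := Nat.mul_le_mul_right _ (by omega)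
      beta_reduce
      omega
    · intro e he f hf hcr heq
      have hadj : adj F e f := ⟨he, hf, Or.inl hcr⟩
      have h3 := h1 ((HG F).connectedComponentMk e) e (by simp [he])
      have h3' := h1 ((HG F).connectedComponentMk f) f (by simp [hf])
      beta_reduce at heq
      have hpar : dd F e % 2 = dd F f % 2 := by
        rcases Nat.mod_two_eq_zero_or_one (dd F e) with h4 | h4 <;>
        rcases Nat.mod_two_eq_zero_or_one (dd F f) with h5 | h5
        · omega
        · rw [h4, h5] at heq; omega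
        · rw [h4, h5] at heq; omega
        · omega
      have hd1 := dd_adj F hadj
      have hd2 := dd_adj F (adj_symm F hadj)
      have hdd : dd F e = dd F f := by omega
      have hH : (HG F).Adj e f := ⟨hadj, hdd⟩
      have hc : (HG F).connectedComponentMk e = (HG F).connectedComponentMk f :=
        SimpleGraph.ConnectedComponent.sound hH.reachable
      rw [hpar, ← hc] at heq
      have := h2 ((HG F).connectedComponentMk e) e (by simp [he]) f (by simp [hf, hc]) hcr
      omega
  obtain ⟨c, hc⟩ := hcomp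
  set K := F.filter (fun e => (HG F).connectedComponentMk e = c) with hKdef
  have hKF : K ⊆ F := Finset.filter_subset _ _
  have hKne : K.Nonempty := by
    by_contra hne
    rw [Finset.not_nonempty_iff_eq_empty] at hne
    apply hc
    rw [hne]
    exact ⟨fun _ => 0, by simp, by simp⟩
  have hconn : ∀ e ∈ K, ∀ f ∈ K, (HG F).Reachable e f := by
    intro e he f hf
    rw [hKdef, Finset.mem_filter] at he hf
    exact SimpleGraph.ConnectedComponent.exact (he.2.trans hf.2.symm)
  have hmem : ∀ e ∈ K, ∀ f, (HG F).Reachable e f → f ∈ K := by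
    intro e he f hf
    have hfF : f ∈ F := by
      refine HG_prop (p := fun u => u ∈ F) ?_ hf (hKF he)
      intro u v huv _
      exact huv.1.2.1
    rw [hKdef, Finset.mem_filter] at he ⊢
    exact ⟨hfF, (SimpleGraph.ConnectedComponent.sound hf).symm.trans he.2⟩
  have hdK : ∀ e ∈ K, ∀ f ∈ K, dd F e = dd F f := by
    intro e he f hf
    have := HG_prop (F := F) (p := fun u => dd F u = dd F e) (fun u v huv hu => huv.2 ▸ hu)
      (hconn e he f hf) rfl
    exact this.symm
  obtain ⟨ex, hex, hexmin⟩ := Finset.exists_min_image K (fun u => u.1) hKne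
  obtain ⟨ey, hey, heymax⟩ := Finset.exists_max_image K (fun u => u.2) hKne
  -- the layer is positive
  have hpos : 1 ≤ dd F ex := by
    by_contra h0
    have h0' : dd F ex = 0 := by omega
    apply hc
    refine ⟨fun _ => 0, fun e _ => (by show 0 < N; omega), ?_⟩
    intro e he f hf hcr
    exfalso
    have hre := dd_zero F (hKF he) (by rw [hdK e he ex hex, h0'])
    have hrf := dd_zero F (hKF hf) (by rw [hdK f hf ex hex, h0'])
    have hadj : adj F e f := ⟨hKF he, hKF hf, Or.inl hcr⟩
    have h1 := hre.2 f (ReflTransGen.single hadj)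
    have h2 := hrf.2 e (ReflTransGen.single (adj_symm F hadj))
    have := hcr.1
    omega
  -- no chord of a lower layer, joined to the component, lies inside the hull
  have hlow : ∀ n J, dd F J = n → n < dd F ex → J ∈ F → ReflTransGen (adj F) J ex →
      ex.1 ≤ J.1 → J.2 ≤ ey.2 → False := by
    intro n
    induction n with
    | zero =>
        intro J hJ hlt hJF hre h1 h2
        have hr := dd_zero F hJF hJ
        have h3 := hr.2 ex hre
        have h4 : J = ex := (hD J hJF ex (hKF hex)).1 (by omega)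
        rw [h4] at hJ
        omega
    | succ n ih =>
        intro J hJ hlt hJF hre h1 h2
        obtain ⟨J', hadj, hJ'⟩ := dd_pred F hJF hJ
        have hnot : ∀ f ∈ K, ¬ adj F J' f := by
          intro f hf hcon
          have h5 := dd_adj F hcon
          have h6 := hdK f hf ex hex
          omega
        have hJ'F := hadj.1
        have hJ'K : J' ∉ K := by
          intro hcon
          have := hdK J' hcon ex hex
          omega
        have hne : ∀ f ∈ K, (J'.1 ≠ f.1 ∧ J'.1 ≠ f.2) ∧ (J'.2 ≠ f.1 ∧ J'.2 ≠ f.2) := by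
          intro f hf
          have a1 := hD J' hJ'F f (hKF hf)
          have a2 := hD f (hKF hf) J' hJ'F
          refine ⟨⟨fun hc => hJ'K ((a1.1 hc) ▸ hf), a1.2.2⟩, ⟨fun hc => a2.2.2 hc.symm, fun hc => hJ'K ((a1.2.1 hc) ▸ hf)⟩⟩
        have hw := hF J hJF
        have hw' := hF J' hJ'F
        have hre' : ReflTransGen (adj F) J' ex := ReflTransGen.head hadj hre
        rcases hadj.2.2 with hcr | hcr
        · -- J' starts first, its right endpoint is inside J
          rcases Nat.lt_or_ge J'.1 ex.1 with h7 | h7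
          · obtain ⟨f, hf, hf1, hf2⟩ := key_claim hF hKF hconn hex hey
              (z := J'.2) (by have := hcr.2.1; omega) (by have := hcr.2.2; omega)
              (fun f hf => (hne f hf).2) hmem
            apply hnot f hf
            refine ⟨hJ'F, hKF hf, Or.inl ⟨?_, hf1, hf2⟩⟩
            have := hexmin f hf
            beta_reduce at this
            omega
          · exact ih J' hJ' (by omega) hJ'F hre' h7 (by have := hcr.2.2; omega)
        · rcases Nat.lt_or_ge ey.2 J'.2 with h7 | h7
          · obtain ⟨f, hf, hf1, hf2⟩ := key_claim hF hKF hconn hex hey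
              (z := J'.1) (by have := hcr.1; omega) (by have := hcr.2.1; omega)
              (fun f hf => (hne f hf).1) hmem
            apply hnot f hf
            refine ⟨hJ'F, hKF hf, Or.inr ⟨hf1, hf2, ?_⟩⟩
            have := heymax f hf
            beta_reduce at this
            omega
          · exact ih J' hJ' (by omega) hJ'F hre' (by have := hcr.1; omega) h7
  refine ⟨K, hKF, hc, ?_⟩
  intro e he
  have hde : dd F e = dd F ex := hdK e he ex hex
  obtain ⟨J, hadj, hJ⟩ := dd_pred F (hKF he) (n := dd F ex - 1) (by omega)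
  have hreach : ReflTransGen (adj F) e ex := by
    refine HG_prop (F := F) (p := fun u => ReflTransGen (adj F) e u) ?_ (hconn e he ex hex)
      ReflTransGen.refl
    intro u v huv hu
    exact hu.tail huv.1
  have hno : ¬ (ex.1 ≤ J.1 ∧ J.2 ≤ ey.2) := fun hcon =>
    hlow (dd F ex - 1) J hJ (by omega) hadj.1 (ReflTransGen.head hadj hreach) hcon.1 hcon.2
  refine ⟨J, hadj.1, ?_⟩
  have hmin := hexmin e he
  have hmax := heymax e he
  beta_reduce at hmin hmax
  rcases hadj.2.2 with hcr | hcr
  · right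
    refine ⟨hcr.2.1, hcr.2.2, ?_⟩
    intro f hf
    have h1 := hexmin f hf
    beta_reduce at h1
    have h2 := hcr.2.2
    omega
  · left
    refine ⟨hcr.1, hcr.2.1, ?_⟩
    intro f hf
    have h1 := heymax f hf
    beta_reduce at h1
    have h2 := hcr.1
    omega

end Pool.Agent.R973.MX
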