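import Mathlib
import Pool.Agent.R973.MX.Base

/-!
# Separated edge sets (helper973)
-/

set_option autoImplicit false

namespace Pool.Agent.R973.MX

/-- every left endpoint is before every right endpoint -/
def Sep (S : Finset Ed) : Prop := ∀ e ∈ S, ∀ f ∈ S, e.1 < f.2

lemma Sep.mono {S T : Finset Ed} (h : Sep S) (hTS : T ⊆ S) : Sep T :=
  fun e he f hf => h e (hTS he) f (hTS hf)

/-- `n` sets satisfying `H` in an arrangement given by `rel` -/
def Arr (rel : Ed → Ed → Prop) (H : Finset Ed → Prop) : ℕ → Finset Ed → Prop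
  | 0, _ => True
  | n + 1, S => ∃ X Y, X ⊆ S ∧ Y ⊆ S ∧ H X ∧ (∀ p ∈ X, ∀ q ∈ Y, rel p q) ∧ Arr rel H n Y

lemma Arr.mono {rel : Ed → Ed → Prop} {H : Finset Ed → Prop} {n : ℕ} {S T : Finset Ed}
    (h : Arr rel H n S) (hST : S ⊆ T) : Arr rel H n T := by
  cases n with
  | zero => trivial
  | succ n =>
      obtain ⟨X, Y, hX, hY, h1, h2, h3⟩ := h
      exact ⟨X, Y, hX.trans hST, hY.trans hST, h1, h2, h3⟩

/-- arrangement of `a` families of `b` edges, `A` inside a family, `B` between families -/
def Fam (A B : Ed → Ed → Prop) (S : Finset Ed) (a b : ℕ) : Prop :=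
  ∃ e : ℕ → ℕ → Ed, (∀ i, i < a → ∀ j, j < b → e i j ∈ S) ∧
    (∀ i, i < a → ∀ j j', j < j' → j' < b → A (e i j) (e i j')) ∧
    (∀ i i', i < i' → i' < a → ∀ j, j < b → ∀ j', j' < b → B (e i j) (e i' j'))

lemma Fam.mono {A B : Ed → Ed → Prop} {S T : Finset Ed} {a b : ℕ} (h : Fam A B S a b)
    (hST : S ⊆ T) : Fam A B T a b := by
  obtain ⟨e, h1, h2, h3⟩ := h
  exact ⟨e, fun i hi j hj => hST (h1 i hi j hj), h2, h3⟩

lemma Fam.weak {A B A' B' : Ed → Ed → Prop} {S : Finset Ed} {a b : ℕ} (h : Fam A B S a b)
    (hA : ∀ e ∈ S, ∀ f ∈ S, A e f → A' e f) (hB : ∀ e ∈ S, ∀ f ∈ S, B e f → B' e f) :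
    Fam A' B' S a b := by
  obtain ⟨e, h1, h2, h3⟩ := h
  exact ⟨e, h1, fun i hi j j' hj hj' => hA _ (h1 i hi j (by omega)) _ (h1 i hi j' hj') (h2 i hi j j' hj hj'),
    fun i i' hi hi' j hj j' hj' => hB _ (h1 i (by omega) j hj) _ (h1 i' hi' j' hj')
      (h3 i i' hi hi' j hj j' hj')⟩

lemma Arr.fam {A B : Ed → Ed → Prop} {H : Finset Ed → Prop} {b : ℕ} :
    ∀ (n : ℕ) (S : Finset Ed), Sep S → (∀ X, X ⊆ S → H X → Ch A X b) →
    Arr B H n S → Fam A B S n b := by
  intro n
  induction n with
  | zero => intro S _ _ _; exact ⟨fun _ _ => (0, 0), by omega, by omega, by omega⟩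
  | succ n ih =>
      rintro S hS hHS ⟨X, Y, hX, hY, h1, h2, h3⟩
      obtain ⟨f, hf1, hf2⟩ := hHS X hX h1
      obtain ⟨e, he1, he2, he3⟩ := ih Y (hS.mono hY) (fun Z hZ => hHS Z (hZ.trans hY)) h3
      refine ⟨fun i j => if i = 0 then f j else e (i - 1) j, ?_, ?_, ?_⟩
      · intro i hi j hj
        by_cases hi0 : i = 0
        · simp only [hi0, if_true]; exact hX (hf1 j hj)
        · simp only [hi0, if_false]; exact hY (he1 (i - 1) (by omega) j hj)
      · intro i hi j j' hj hj'
        by_cases hi0 : i = 0
        · simp only [hi0, if_true]; exact hf2 j j' hj hj'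
        · simp only [hi0, if_false]; exact he2 (i - 1) (by omega) j j' hj hj'
      · intro i i' hi hi' j hj j' hj'
        have hi'0 : i' ≠ 0 := by omega
        simp only [hi'0, if_false]
        by_cases hi0 : i = 0
        · simp only [hi0, if_true]
          exact h2 _ (hf1 j hj) _ (he1 (i' - 1) (by omega) j' hj')
        · simp only [hi0, if_false]
          exact he3 (i - 1) (i' - 1) (by omega) (by omega) j hj j' hj'

/-- strictly increasing pair -/
def Ic (e f : Ed) : Prop := e.1 < f.1 ∧ e.2 < f.2

/-- splitting a set with large `SQ` by the first coordinate -/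
lemma split_fst (S : Finset Ed) (M : ℕ) (h : ¬ SQ S M) :
    ∃ x, ¬ SQ (S.filter (fun e => e.1 ≤ x)) M ∧ SQ (S.filter (fun e => e.1 ≤ x)) (M + 1) := by
  classical
  have hex : ∃ x, ¬ SQ (S.filter (fun e => e.1 ≤ x)) M := by
    refine ⟨S.sup (fun e => e.1), ?_⟩
    rwa [Finset.filter_true_of_mem]
    intro e he
    exact Finset.le_sup (f := fun e : Ed => e.1) he
  refine ⟨Nat.find hex, Nat.find_spec hex, ?_⟩
  have hprev : SQ (S.filter (fun e => e.1 < Nat.find hex)) M := by
    rcases Nat.eq_zero_or_pos (Nat.find hex) with h0 | h0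
    · refine (SQ.of_empty M).mono ?_ le_rfl
      intro e he
      rw [h0] at he; simp at he
    · have := Nat.find_min hex (m := Nat.find hex - 1) (by omega)
      push Not at this
      refine this.mono ?_ le_rfl
      intro e he
      simp only [Finset.mem_filter] at he ⊢
      exact ⟨he.1, by omega⟩
  have hcol : SQ (S.filter (fun e => e.1 = Nat.find hex)) 1 := by
    refine SQ.of_cr (fun _ => 0) (by simp) ?_
    intro e he f hf hcr
    simp only [Finset.mem_filter] at he hf
    have := hcr.1
    omega
  refine hprev.add hcol ?_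
  intro e he
  simp only [Finset.mem_filter] at he ⊢
  rcases Nat.lt_or_ge e.1 (Nat.find hex) with h | h
  · left; exact ⟨he.1, h⟩
  · right; exact ⟨he.1, by omega⟩

lemma split_snd (S : Finset Ed) (M : ℕ) (h : ¬ SQ S M) :
    ∃ x, ¬ SQ (S.filter (fun e => e.2 ≤ x)) M ∧ SQ (S.filter (fun e => e.2 ≤ x)) (M + 1) := by
  classical
  have hex : ∃ x, ¬ SQ (S.filter (fun e => e.2 ≤ x)) M := by
    refine ⟨S.sup (fun e => e.2), ?_⟩
    rwa [Finset.filter_true_of_mem]
    intro e he
    exact Finset.le_sup (f := fun e : Ed => e.2) he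
  refine ⟨Nat.find hex, Nat.find_spec hex, ?_⟩
  have hprev : SQ (S.filter (fun e => e.2 < Nat.find hex)) M := by
    rcases Nat.eq_zero_or_pos (Nat.find hex) with h0 | h0
    · refine (SQ.of_empty M).mono ?_ le_rfl
      intro e he
      rw [h0] at he; simp at he
    · have := Nat.find_min hex (m := Nat.find hex - 1) (by omega)
      push Not at this
      refine this.mono ?_ le_rfl
      intro e he
      simp only [Finset.mem_filter] at he ⊢
      exact ⟨he.1, by omega⟩
  have hcol : SQ (S.filter (fun e => e.2 = Nat.find hex)) 1 := by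
    refine SQ.of_cr (fun _ => 0) (by simp) ?_
    intro e he f hf hcr
    simp only [Finset.mem_filter] at he hf
    have := hcr.2.2
    omega
  refine hprev.add hcol ?_
  intro e he
  simp only [Finset.mem_filter] at he ⊢
  rcases Nat.lt_or_ge e.2 (Nat.find hex) with h | h
  · left; exact ⟨he.1, h⟩
  · right; exact ⟨he.1, by omega⟩

lemma arr_main (k : ℕ) : ∀ n m : ℕ, ∃ B, ∀ S : Finset Ed, ¬ SQ S B →
    Arr Ic (fun X => ¬ SQ X k) n S ∨ Arr Ns (fun X => ¬ SQ X k) m S := by
  classical
  intro n
  induction n with
  | zero => intro m; exact ⟨0, fun S _ => Or.inl trivial⟩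
  | succ n ihn =>
      intro m
      induction m with
      | zero => exact ⟨0, fun S _ => Or.inr trivial⟩
      | succ m ihm =>
          obtain ⟨B1, hB1⟩ := ihn (m + 1)
          obtain ⟨B2, hB2⟩ := ihm
          set P := max B1 B2 with hP
          refine ⟨(2 * k + 1) + 1 + (P + P), ?_⟩
          intro S hS
          obtain ⟨x, hA, hA'⟩ := split_fst S (2 * k + 1)
            (fun h => hS (h.mono (Finset.Subset.refl _) (by omega)))
          set A := S.filter (fun e => e.1 ≤ x) with hAdef
          obtain ⟨y, hL, hL'⟩ := split_snd A k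
            (fun h => hA (h.mono (Finset.Subset.refl _) (by omega)))
          have hU : ¬ SQ (A.filter (fun e => y < e.2)) k := by
            intro h
            apply hA
            have := hL'.add h (U := A) (by
              intro e he
              simp only [Finset.mem_filter]
              rcases Nat.lt_or_ge y e.2 with h | h
              · right; exact ⟨he, h⟩
              · left; exact ⟨he, h⟩)
            exact this.mono (Finset.Subset.refl _) (by omega)
          set C := S.filter (fun e => x < e.1) with hCdef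
          have hC : ¬ SQ C (P + P) := by
            intro h
            apply hS
            refine hA'.add h ?_
            intro e he
            rw [hAdef, hCdef]
            simp only [Finset.mem_filter]
            rcases Nat.lt_or_ge x e.1 with h | h
            · right; exact ⟨he, h⟩
            · left; exact ⟨he, h⟩
          have hsplit : ¬ SQ (C.filter (fun e => y < e.2)) P ∨ ¬ SQ (C.filter (fun e => e.2 ≤ y)) P := by
            by_contra hcon
            push Not at hcon
            apply hC
            refine hcon.1.add hcon.2 ?_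
            intro e he
            simp only [Finset.mem_filter]
            rcases Nat.lt_or_ge y e.2 with h | h
            · left; exact ⟨he, h⟩
            · right; exact ⟨he, h⟩
          rcases hsplit with h | h
          · have hsub : C.filter (fun e => y < e.2) ⊆ S :=
              (Finset.filter_subset _ _).trans (Finset.filter_subset _ _)
            rcases hB1 _ (fun h' => h (h'.mono (Finset.Subset.refl _) (le_max_left _ _))) with h1 | h1
            · left
              refine ⟨A.filter (fun e => e.2 ≤ y), C.filter (fun e => y < e.2),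
                (Finset.filter_subset _ _).trans (Finset.filter_subset _ _), hsub, hL, ?_, h1⟩
              intro p hp q hq
              simp only [hAdef, hCdef, Finset.mem_filter] at hp hq
              exact ⟨by omega, by omega⟩
            · right
              exact h1.mono hsub
          · have hsub : C.filter (fun e => e.2 ≤ y) ⊆ S :=
              (Finset.filter_subset _ _).trans (Finset.filter_subset _ _)
            rcases hB2 _ (fun h' => h (h'.mono (Finset.Subset.refl _) (le_max_right _ _))) with h1 | h1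
            · left
              exact h1.mono hsub
            · right
              refine ⟨A.filter (fun e => y < e.2), C.filter (fun e => e.2 ≤ y),
                (Finset.filter_subset _ _).trans (Finset.filter_subset _ _), hsub, hU, ?_, h1⟩
              intro p hp q hq
              simp only [hAdef, hCdef, Finset.mem_filter] at hp hq
              exact ⟨by omega, by omega⟩

/-- the separated theorem -/
theorem sep_thm (k : ℕ) : ∃ B, ∀ S : Finset Ed, Sep S → ¬ Fam Cr Ns S k k → ¬ Fam Ns Cr S k k →
    SQ S B := by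
  obtain ⟨B, hB⟩ := arr_main k k k
  refine ⟨B, fun S hS h1 h2 => ?_⟩
  by_contra hcon
  have hcr : ∀ X, X ⊆ S → ¬ SQ X k → Ch Ic X k := by
    intro X hX hXk
    rcases mirsky Ic (fun a b c h h' => ⟨h.1.trans h'.1, h.2.trans h'.2⟩) k X with h | ⟨c, hc1, hc2⟩
    · exact h.mono (Finset.Subset.refl _) (by omega)
    · exact absurd (SQ.of_cr c hc1 (fun e he f hf h => hc2 e he f hf ⟨h.1, h.2.2⟩)) hXk
  have hns : ∀ X, X ⊆ S → ¬ SQ X k → Ch Ns X k := by
    intro X hX hXk
    rcases mirsky Ns (fun a b c h h' => ⟨h.1.trans h'.1, h'.2.trans h.2⟩) k X with h | ⟨c, hc1, hc2⟩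
    · exact h.mono (Finset.Subset.refl _) (by omega)
    · exact absurd (SQ.of_ns c hc1 hc2) hXk
  have hIcCr : ∀ e ∈ S, ∀ f ∈ S, Ic e f → Cr e f := fun e he f hf h => ⟨h.1, hS f hf e he, h.2⟩
  rcases hB S hcon with h | h
  · apply h2
    have := Arr.fam (A := Ns) (B := Ic) (b := k) (H := fun X => ¬ SQ X k) k S hS hns h
    exact this.weak (fun _ _ _ _ h => h) hIcCr
  · apply h1
    have := Arr.fam (A := Ic) (B := Ns) (b := k) (H := fun X => ¬ SQ X k) k S hS hcr h
    exact this.weak hIcCr (fun _ _ _ _ h => h)

end Pool.Agent.R973.MX
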