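import Mathlib
import Pool.Agent.R973.MX.Layer

/-!
# Greedy stations and circle graphs (helper973)
-/

set_option autoImplicit false

namespace Pool.Agent.R973.MX

open Classical in
/-- greedy partition of the line into minimal intervals satisfying `Q` -/
noncomputable def gp (Q : ℕ → ℕ → Prop) : ℕ → ℕ × ℕ
  | 0 => (0, 0)
  | x + 1 => if Q (gp Q x).2 (x + 1) then ((gp Q x).1 + 1, x + 1) else gp Q x

/-- index of the station containing a point -/
noncomputable def st (Q : ℕ → ℕ → Prop) (x : ℕ) : ℕ := (gp Q x).1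

/-- beginning of the station containing a point -/
noncomputable def bg (Q : ℕ → ℕ → Prop) (x : ℕ) : ℕ := (gp Q x).2

section
variable (Q : ℕ → ℕ → Prop)

lemma st_pos {x : ℕ} (h : Q (bg Q x) (x + 1)) :
    st Q (x + 1) = st Q x + 1 ∧ bg Q (x + 1) = x + 1 := by
  unfold st bg at *
  simp [gp, h]

lemma st_neg {x : ℕ} (h : ¬ Q (bg Q x) (x + 1)) :
    st Q (x + 1) = st Q x ∧ bg Q (x + 1) = bg Q x := by
  unfold st bg at *
  simp [gp, h]

lemma bg_le (x : ℕ) : bg Q x ≤ x := by
  induction x with
  | zero => simp [bg, gp]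
  | succ x ih =>
      by_cases h : Q (bg Q x) (x + 1)
      · rw [(st_pos Q h).2]
      · rw [(st_neg Q h).2]; omega

lemma st_step (x : ℕ) : st Q x ≤ st Q (x + 1) ∧ st Q (x + 1) ≤ st Q x + 1 := by
  by_cases h : Q (bg Q x) (x + 1)
  · rw [(st_pos Q h).1]; omega
  · rw [(st_neg Q h).1]; omega

lemma st_mono {x y : ℕ} (h : x ≤ y) : st Q x ≤ st Q y :=
  monotone_nat_of_le_succ (fun n => (st_step Q n).1) h

lemma st_const (x : ℕ) : ∀ z, bg Q x ≤ z → z ≤ x → st Q z = st Q x := by
  induction x with
  | zero => intro z _ hz; have : z = 0 := by omega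
            rw [this]
  | succ x ih =>
      intro z h1 h2
      by_cases h : Q (bg Q x) (x + 1)
      · rw [(st_pos Q h).2] at h1
        have : z = x + 1 := by omega
        rw [this]
      · rw [(st_neg Q h).2] at h1
        rcases Nat.lt_or_ge z (x + 1) with h3 | h3
        · rw [(st_neg Q h).1]; exact ih z h1 (by omega)
        · have : z = x + 1 := by omega
          rw [this]

lemma st_lt_of_lt_bg (x : ℕ) : ∀ u, u < bg Q x → st Q u < st Q x := by
  induction x with
  | zero => intro u hu; simp [bg, gp] at hu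
  | succ x ih =>
      intro u hu
      by_cases h : Q (bg Q x) (x + 1)
      · rw [(st_pos Q h).2] at hu
        rw [(st_pos Q h).1]
        have := st_mono Q (x := u) (y := x) (by omega)
        omega
      · rw [(st_neg Q h).2] at hu
        rw [(st_neg Q h).1]
        exact ih u hu

lemma bg_le_of_st_eq {u x : ℕ} (h : st Q u = st Q x) : bg Q x ≤ u := by
  by_contra hcon
  have := st_lt_of_lt_bg Q x u (by omega)
  omega

lemma st_complete (y : ℕ) : ∀ i, i < st Q y → ∃ a c, Q a c ∧ ∀ z, a ≤ z → z < c → st Q z = i := by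
  induction y with
  | zero => intro i hi; simp [st, gp] at hi
  | succ y ih =>
      intro i hi
      by_cases h : Q (bg Q y) (y + 1)
      · rw [(st_pos Q h).1] at hi
        rcases Nat.lt_or_ge i (st Q y) with h1 | h1
        · exact ih i h1
        · refine ⟨bg Q y, y + 1, h, fun z h2 h3 => ?_⟩
          rw [st_const Q y z h2 (by omega)]
          omega
      · rw [(st_neg Q h).1] at hi
        exact ih i hi

end

lemma pair_inj {b c c' r r' : ℕ} (hc : c < b) (hc' : c' < b) (h : r * b + c = r' * b + c') :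
    r = r' ∧ c = c' := by
  rcases lt_trichotomy r r' with h1 | h1 | h1
  · have := Nat.mul_le_mul_right b (show r + 1 ≤ r' by omega)
    rw [Nat.add_mul] at this
    omega
  · subst h1; omega
  · have := Nat.mul_le_mul_right b (show r' + 1 ≤ r by omega)
    rw [Nat.add_mul] at this
    omega

lemma mod_eq_window {a c m : ℕ} (h1 : a ≤ c) (h2 : c < a + m) (h : a % m = c % m) : a = c := by
  have h3 : m ∣ c - a := (Nat.modEq_iff_dvd' h1).1 h
  have h4 : c - a < m := by omega
  have := Nat.eq_zero_of_dvd_of_lt h3 h4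
  omega

/-- nested chain of families -/
def Lv (F : Finset Ed) : ℕ → Finset Ed → Prop
  | 0, K => K ⊆ F
  | r + 1, K => ∃ K', K ⊆ K' ∧ Ext K K' ∧ Lv F r K'

lemma Lv.sub {F : Finset Ed} : ∀ {r : ℕ} {K : Finset Ed}, Lv F r K → K ⊆ F := by
  intro r
  induction r with
  | zero => intro K h; exact h
  | succ r ih =>
      rintro K ⟨K', h1, _, h3⟩
      exact h1.trans (ih h3)

lemma grow {F : Finset Ed} : ∀ (r : ℕ) (K : Finset Ed), Lv F r K → ∀ (s : ℕ) (t : ℕ → Ed),
    (∀ i, i < s + 1 → t i ∈ K) → (∀ i j, i < j → j < s + 1 → Cr (t i) (t j)) →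
    ∀ (m : ℕ) (g : ℕ → Ed), 2 ^ r ≤ m + 1 → (∀ i, i < m → g i ∈ K) →
    (∀ i j, i < j → j < m → (g i).2 < (g j).1) →
    (∀ i, i < m → (t s).1 < (g i).1 ∧ (g i).2 < (t 0).2) → Ch Cr F (s + 1 + r) := by
  intro r
  induction r with
  | zero =>
      intro K hK s t ht1 ht2 m g _ _ _ _
      exact ⟨t, fun i hi => hK (ht1 i (by omega)), fun i j hij hj => ht2 i j hij (by omega)⟩
  | succ r ih =>
      rintro K ⟨K', hKK', hext, hK'⟩ s t ht1 ht2 m g hm hg1 hg2 hg3
      have hpow : 1 ≤ 2 ^ r := Nat.one_le_two_pow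
      have hpow2 : 2 ^ (r + 1) = 2 ^ r + 2 ^ r := by rw [pow_succ]; omega
      set h := 2 ^ r - 1 with hh
      have hhm : h < m := by omega
      have hts : ∀ i, i < s + 1 → (t i).1 ≤ (t s).1 ∧ (t 0).2 ≤ (t i).2 := by
        intro i hi
        constructor
        · rcases Nat.lt_or_ge i s with h1 | h1
          · exact (ht2 i s h1 (by omega)).1.le
          · have : i = s := by omega
            rw [this]
        · rcases Nat.eq_zero_or_pos i with h1 | h1
          · rw [h1]
          · exact (ht2 0 i h1 hi).2.2.le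
      obtain ⟨J, hJ, hcase⟩ := hext (g h) (hg1 h hhm)
      have hwin := hg3 h hhm
      rcases hcase with ⟨h1, h2, h3⟩ | ⟨h1, h2, h3⟩
      · -- external chord to the right
        have := ih K' hK' (s + 1) (fun i => if i < s + 1 then t i else J) ?_ ?_ (m - h - 1)
          (fun i => g (h + 1 + i)) (by omega) ?_ ?_ ?_
        · have he : s + 1 + 1 + r = s + 1 + (r + 1) := by ring
          rwa [he] at this
        · intro i hi
          by_cases hi' : i < s + 1
          · rw [if_pos hi']; exact hKK' (ht1 i hi')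
          · rw [if_neg hi']; exact hJ
        · intro i j hij hj
          have hi' : i < s + 1 := by omega
          rw [if_pos hi']
          by_cases hj' : j < s + 1
          · rw [if_pos hj']; exact ht2 i j hij hj'
          · rw [if_neg hj']
            have h4 := hts i hi'
            exact ⟨by omega, by omega, h3 _ (ht1 i hi')⟩
        · intro i hi
          exact hKK' (hg1 _ (by omega))
        · intro i j hij hj
          exact hg2 _ _ (by omega) (by omega)
        · intro i hi
          rw [if_neg (by omega : ¬ s + 1 < s + 1), if_pos (by omega : 0 < s + 1)]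
          have h5 := hg2 h (h + 1 + i) (by omega) (by omega)
          exact ⟨by omega, (hg3 _ (by omega)).2⟩
      · -- external chord to the left
        have := ih K' hK' (s + 1) (fun i => if i = 0 then J else t (i - 1)) ?_ ?_ h
          g (by omega) ?_ ?_ ?_
        · have he : s + 1 + 1 + r = s + 1 + (r + 1) := by ring
          rwa [he] at this
        · intro i hi
          by_cases hi' : i = 0
          · rw [if_pos hi']; exact hJ
          · rw [if_neg hi']; exact hKK' (ht1 _ (by omega))
        · intro i j hij hj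
          rw [if_neg (by omega : ¬ j = 0)]
          by_cases hi' : i = 0
          · rw [if_pos hi']
            have h4 := hts (j - 1) (by omega)
            exact ⟨h3 _ (ht1 _ (by omega)), by omega, by omega⟩
          · rw [if_neg hi']
            exact ht2 _ _ (by omega) (by omega)
        · intro i hi
          exact hKK' (hg1 _ (by omega))
        · intro i j hij hj
          exact hg2 _ _ hij (by omega)
        · intro i hi
          rw [if_neg (by omega : ¬ s + 1 = 0), if_pos rfl]
          have h5 := hg2 i h (by omega) (by omega)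
          have h6 := hg3 i (by omega)
          simp only [Nat.add_sub_cancel]
          exact ⟨h6.1, by omega⟩

lemma station_colour (K : Finset Ed) (hW : Wf K) (hD : Di K) (b : ℕ)
    (h1 : ∀ e ∈ K, ¬ ∃ g : ℕ → Ed, (∀ i, i < 2 ^ b - 1 → g i ∈ K) ∧
      (∀ i j, i < j → j < 2 ^ b - 1 → (g i).2 < (g j).1) ∧
      (∀ i, i < 2 ^ b - 1 → e.1 < (g i).1 ∧ (g i).2 < e.2))
    (h2 : ¬ Ch Cr K (b + 1)) : Cl K (2 ^ b * b) := by
  classical
  set Q : ℕ → ℕ → Prop := fun a c => ∃ e ∈ K, a ≤ e.1 ∧ e.2 < c with hQ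
  have hpow : 1 ≤ 2 ^ b := Nat.one_le_two_pow
  -- bounded span
  have hspan : ∀ e ∈ K, st Q e.2 < st Q e.1 + 2 ^ b := by
    intro e he
    by_contra hcon
    push Not at hcon
    apply h1 e he
    have hex : ∀ i, st Q e.1 + 1 + i < st Q e.2 → ∃ g ∈ K, st Q g.1 = st Q e.1 + 1 + i ∧
        st Q g.2 = st Q e.1 + 1 + i := by
      intro i hi
      obtain ⟨a, c, ⟨g, hg, hg1, hg2⟩, hz⟩ := st_complete Q e.2 _ hi
      have hw := hW g hg
      exact ⟨g, hg, hz _ hg1 (by omega), hz _ (by omega) hg2⟩
    choose! g hg1 hg2 hg3 using hex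
    refine ⟨g, fun i hi => hg1 i (by omega), ?_, ?_⟩
    · intro i j hij hj
      by_contra hc
      have h3 := st_mono Q (show (g j).1 ≤ (g i).2 by omega)
      rw [hg2 j (by omega), hg3 i (by omega)] at h3
      omega
    · intro i hi
      constructor
      · by_contra hc
        have h3 := st_mono Q (show (g i).1 ≤ e.1 by omega)
        rw [hg2 i (by omega)] at h3
        omega
      · by_contra hc
        have h3 := st_mono Q (show e.2 ≤ (g i).2 by omega)
        rw [hg3 i (by omega)] at h3
        omega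
  -- groups are separated
  have hsep : ∀ e ∈ K, ∀ f ∈ K, st Q e.1 = st Q f.1 → e.1 < f.2 := by
    intro e he f hf heq
    by_contra hcon
    have hne := (hD e he f hf).2.2
    have hlt : f.2 < e.1 := by omega
    have hwf := hW f hf
    have h3 := st_mono Q (show f.1 ≤ f.2 by omega)
    have h4 := st_mono Q (show f.2 ≤ e.1 by omega)
    have h5 : st Q f.1 = st Q f.2 := by omega
    have h6 := bg_le_of_st_eq Q h5
    have h7 := (st_pos Q (x := f.2) ⟨f, hf, h6, by omega⟩).1
    have h8 := st_mono Q (show f.2 + 1 ≤ e.1 by omega)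
    omega
  have hgrp : ∀ i, ∃ c : Ed → ℕ, (∀ e ∈ K.filter (fun e => st Q e.1 = i), c e < b) ∧
      ∀ e ∈ K.filter (fun e => st Q e.1 = i), ∀ f ∈ K.filter (fun e => st Q e.1 = i),
        (e.1 < f.1 ∧ e.2 < f.2) → c e ≠ c f := by
    intro i
    rcases mirsky (fun e f => e.1 < f.1 ∧ e.2 < f.2)
      (fun a b c h h' => ⟨h.1.trans h'.1, h.2.trans h'.2⟩) b (K.filter (fun e => st Q e.1 = i)) with h | h
    · exfalso
      apply h2
      obtain ⟨f, hf1, hf2⟩ := h
      refine ⟨f, fun i hi => (Finset.mem_filter.1 (hf1 i hi)).1, fun i j hij hj => ?_⟩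
      have h3 := hf2 i j hij hj
      have h4 := Finset.mem_filter.1 (hf1 i (by omega))
      have h5 := Finset.mem_filter.1 (hf1 j (by omega))
      exact ⟨h3.1, hsep _ h5.1 _ h4.1 (h5.2.trans h4.2.symm), h3.2⟩
    · exact h
  choose c hc1 hc2 using hgrp
  refine ⟨fun e => (st Q e.1 % 2 ^ b) * b + c (st Q e.1) e, ?_, ?_⟩
  · intro e he
    have h3 := hc1 (st Q e.1) e (by simp [he])
    have h4 : st Q e.1 % 2 ^ b < 2 ^ b := Nat.mod_lt _ (by omega)
    have h5 := Nat.mul_le_mul_right b (show st Q e.1 % 2 ^ b + 1 ≤ 2 ^ b by omega)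
    rw [Nat.add_mul] at h5
    beta_reduce
    omega
  · intro e he f hf hcr heq
    beta_reduce at heq
    obtain ⟨h3, h4⟩ := pair_inj (hc1 (st Q e.1) e (by simp [he])) (hc1 (st Q f.1) f (by simp [hf])) heq
    have h5 := st_mono Q (show e.1 ≤ f.1 from hcr.1.le)
    have h6 := st_mono Q (show f.1 ≤ e.2 from hcr.2.1.le)
    have h7 := hspan e he
    have h8 := mod_eq_window h5 (by omega) h3
    rw [← h8] at h4
    exact hc2 (st Q e.1) e (by simp [he]) f (by simp [hf, h8]) ⟨hcr.1, hcr.2.2⟩ h4

lemma exists_lv (F : Finset Ed) (hW : Wf F) (hD : Di F) : ∀ (r N : ℕ), 1 ≤ N → ¬ Cl F (2 ^ r * N) →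
    ∃ K, Lv F r K ∧ ¬ Cl K N := by
  intro r
  induction r with
  | zero => intro N _ h; exact ⟨F, Finset.Subset.refl _, by simpa using h⟩
  | succ r ih =>
      intro N hN h
      obtain ⟨K', hK', hc⟩ := ih (2 * N) (by omega) (by
        intro h'; apply h; rw [pow_succ, mul_assoc]; exact h')
      obtain ⟨K, hKK', hcK, hext⟩ := layer K' (hW.mono hK'.sub) (hD.mono hK'.sub) N hN hc
      exact ⟨K, ⟨K', hKK', hext, hK'⟩, hcK⟩

theorem circ_di (b : ℕ) (F : Finset Ed) (hW : Wf F) (hD : Di F) (h : ¬ Ch Cr F (b + 1)) :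
    Cl F (2 ^ b * (2 ^ b * b + 1)) := by
  by_contra hcon
  obtain ⟨K, hK, hc⟩ := exists_lv F hW hD b (2 ^ b * b + 1) (by omega) hcon
  apply hc
  refine (station_colour K (hW.mono hK.sub) (hD.mono hK.sub) b ?_ ?_).mono (Finset.Subset.refl _)
    (by omega)
  · rintro e he ⟨g, hg1, hg2, hg3⟩
    apply h
    have := grow b K hK 0 (fun _ => e) (fun _ _ => he) (fun i j _ _ => by omega) (2 ^ b - 1) g
      (by omega) hg1 hg2 hg3
    have he : 0 + 1 + b = b + 1 := by ring
    rwa [he] at this
  · intro hcon'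
    exact h (hcon'.mono hK.sub le_rfl)

/-- general families: endpoints may be shared -/
theorem circ (b : ℕ) (S : Finset Ed) (hW : Wf S) (h : ¬ Ch Cr S (b + 1)) :
    Cl S (2 ^ b * (2 ^ b * b + 1)) := by
  classical
  set B := S.sup (fun e => e.2) with hB
  have hle : ∀ e ∈ S, e.2 ≤ B := fun e he => Finset.le_sup (f := fun e : Ed => e.2) he
  set W := 2 * B + 2 with hWdef
  set φ : Ed → Ed := fun e => (e.1 * W + (B + 1 + (B - e.2)), e.2 * W + (B - e.1)) with hφ
  have hmul : ∀ {x y : ℕ}, x < y → x * W + W ≤ y * W := by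
    intro x y hxy
    have := Nat.mul_le_mul_right W (show x + 1 ≤ y by omega)
    rwa [Nat.add_mul, one_mul] at this
  have hmul' : ∀ {x y : ℕ}, x ≤ y → x * W ≤ y * W := fun h => Nat.mul_le_mul_right W h
  -- comparison lemmas
  have hLL : ∀ e ∈ S, ∀ f ∈ S, (φ e).1 < (φ f).1 → e.1 < f.1 ∨ (e.1 = f.1 ∧ f.2 < e.2) := by
    intro e he f hf hlt
    simp only [hφ] at hlt
    have h1 := hle e he
    have h2 := hle f hf
    rcases lt_trichotomy e.1 f.1 with h3 | h3 | h3
    · exact Or.inl h3
    · right
      rw [h3] at hlt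
      exact ⟨h3, by omega⟩
    · have := hmul h3
      omega
  have hRR : ∀ e ∈ S, ∀ f ∈ S, (φ e).2 < (φ f).2 → e.2 < f.2 ∨ (e.2 = f.2 ∧ f.1 < e.1) := by
    intro e he f hf hlt
    simp only [hφ] at hlt
    have h1 := hle e he
    have h2 := hle f hf
    have h1' := hW e he
    have h2' := hW f hf
    rcases lt_trichotomy e.2 f.2 with h3 | h3 | h3
    · exact Or.inl h3
    · right
      rw [h3] at hlt
      exact ⟨h3, by omega⟩
    · have := hmul h3
      omega
  have hLR : ∀ e ∈ S, ∀ f ∈ S, (φ e).1 < (φ f).2 → e.1 < f.2 := by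
    intro e he f hf hlt
    simp only [hφ] at hlt
    have h1 := hle e he
    have h2 := hle f hf
    by_contra h3
    rcases Nat.lt_or_ge f.2 e.1 with h4 | h4
    · have := hmul h4
      omega
    · have h5 : e.1 = f.2 := by omega
      rw [h5] at hlt
      omega
  have hback : ∀ e ∈ S, ∀ f ∈ S, Cr (φ e) (φ f) → Cr e f := by
    intro e he f hf hcr
    have h1 := hLL e he f hf hcr.1
    have h2 := hLR f hf e he hcr.2.1
    have h3 := hRR e he f hf hcr.2.2
    refine ⟨by omega, h2, by omega⟩
  have hfor : ∀ e ∈ S, ∀ f ∈ S, Cr e f → Cr (φ e) (φ f) := by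
    intro e he f hf hcr
    have h1 := hle e he
    have h2 := hle f hf
    have h1' := hW e he
    have h2' := hW f hf
    refine ⟨?_, ?_, ?_⟩
    · simp only [hφ]; have := hmul hcr.1; omega
    · simp only [hφ]; have := hmul hcr.2.1; omega
    · simp only [hφ]; have := hmul hcr.2.2; omega
  have hWφ : Wf (S.image φ) := by
    intro x hx
    obtain ⟨e, he, rfl⟩ := Finset.mem_image.1 hx
    simp only [hφ]
    have h1 := hle e he
    have := hmul (hW e he)
    omega
  have hDφ : Di (S.image φ) := by
    intro x hx y hy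
    obtain ⟨e, he, rfl⟩ := Finset.mem_image.1 hx
    obtain ⟨f, hf, rfl⟩ := Finset.mem_image.1 hy
    have h1 := hle e he
    have h2 := hle f hf
    have h1' := hW e he
    have h2' := hW f hf
    refine ⟨?_, ?_, ?_⟩
    · intro heq
      have h3 : e.1 = f.1 := by
        simp only [hφ] at heq
        rcases lt_trichotomy e.1 f.1 with h3 | h3 | h3
        · have := hmul h3; omega
        · exact h3
        · have := hmul h3; omega
      have h4 : e.2 = f.2 := by
        simp only [hφ] at heq
        rw [h3] at heq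
        omega
      rw [Prod.ext h3 h4]
    · intro heq
      have h3 : e.2 = f.2 := by
        simp only [hφ] at heq
        rcases lt_trichotomy e.2 f.2 with h3 | h3 | h3
        · have := hmul h3; omega
        · exact h3
        · have := hmul h3; omega
      have h4 : e.1 = f.1 := by
        simp only [hφ] at heq
        rw [h3] at heq
        omega
      rw [Prod.ext h4 h3]
    · intro heq
      simp only [hφ] at heq
      rcases lt_trichotomy e.1 f.2 with h3 | h3 | h3
      · have := hmul h3; omega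
      · rw [h3] at heq; omega
      · have := hmul h3; omega
  have hnot : ¬ Ch Cr (S.image φ) (b + 1) := by
    rintro ⟨f, hf1, hf2⟩
    apply h
    have hex : ∀ i, i < b + 1 → ∃ e ∈ S, φ e = f i := by
      intro i hi
      exact Finset.mem_image.1 (hf1 i hi)
    choose! g hg1 hg2 using hex
    refine ⟨g, hg1, fun i j hij hj => hback _ (hg1 i (by omega)) _ (hg1 j hj) ?_⟩
    rw [hg2 i (by omega), hg2 j hj]
    exact hf2 i j hij hj
  obtain ⟨c, hc1, hc2⟩ := circ_di b (S.image φ) hWφ hDφ hnot
  exact ⟨fun e => c (φ e), fun e he => hc1 _ (Finset.mem_image_of_mem _ he),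
    fun e he f hf hcr => hc2 _ (Finset.mem_image_of_mem _ he) _ (Finset.mem_image_of_mem _ hf)
      (hfor e he f hf hcr)⟩

end Pool.Agent.R973.MX
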