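import Mathlib
import Pool.Agent.R973.MX.Sep
import Pool.Agent.R973.MX.Stn

/-!
# The main induction (helper973)
-/

set_option autoImplicit false

namespace Pool.Agent.R973.MX

lemma circ' (b : ℕ) : ∃ H, ∀ S : Finset Ed, Wf S → ¬ Ch Cr S b → Cl S H := by
  cases b with
  | zero => exact ⟨0, fun S _ h => absurd ⟨fun _ => (0, 0), by omega, by omega⟩ h⟩
  | succ b => exact ⟨_, fun S hS h => circ b S hS h⟩

lemma Ns_trans {e f g : Ed} (h : Ns e f) (h' : Ns f g) : Ns e g :=
  ⟨h.1.trans h'.1, h'.2.trans h.2⟩

/-- station predicate: the interval `[p, q)` contains `b` pairwise crossing edges of `S` -/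
def TwQ (S : Finset Ed) (b : ℕ) (p q : ℕ) : Prop :=
  ∃ t : ℕ → Ed, (∀ i, i < b → t i ∈ S ∧ p ≤ (t i).1 ∧ (t i).2 < q) ∧
    ∀ i j, i < j → j < b → Cr (t i) (t j)

/-- long edges contain few nested copies of large twists -/
lemma long_fam (S : Finset Ed) (hS : Wf S) (a b : ℕ) (hb : 1 ≤ b)
    (h : Fam Cr Ns (S.filter (fun e => st (TwQ S b) e.1 + 2 ≤ st (TwQ S b) e.2)) (a + 1) (3 * b)) :
    Fam Cr Ns S (a + 1 + 1) b := by
  classical
  set s := st (TwQ S b) with hs
  have smono : ∀ {x y : ℕ}, x ≤ y → s x ≤ s y := fun h => st_mono (TwQ S b) h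
  obtain ⟨e, he1, he2, he3⟩ := h
  have hmem : ∀ i, i < a + 1 → ∀ j, j < 3 * b → e i j ∈ S ∧ s (e i j).1 + 2 ≤ s (e i j).2 := by
    intro i hi j hj
    exact Finset.mem_filter.1 (he1 i hi j hj)
  have hle : ∀ j j', j ≤ j' → j' < 3 * b → s (e a j).1 ≤ s (e a j').1 := by
    intro j j' hj hj'
    rcases Nat.lt_or_ge j j' with h | h
    · exact smono (he2 a (by omega) j j' h hj').1.le
    · have : j = j' := by omega
      rw [this]
  have hγ2 : ∀ j, j < 3 * b → s (e a (3 * b - 1)).1 ≤ s (e a j).2 := by
    intro j hj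
    rcases Nat.lt_or_ge j (3 * b - 1) with h | h
    · exact smono (he2 a (by omega) j (3 * b - 1) h (by omega)).2.1.le
    · have h1 : j = 3 * b - 1 := by omega
      rw [h1]
      exact smono (hS _ (hmem a (by omega) (3 * b - 1) (by omega)).1).le
  have key : ∃ c t, c + b ≤ 3 * b ∧ ∀ j, j < b → s (e a (c + j)).1 < t ∧ t < s (e a (c + j)).2 := by
    by_cases hA : s (e a (b - 1)).1 + 2 ≤ s (e a (3 * b - 1)).1
    · refine ⟨0, s (e a (3 * b - 1)).1 - 1, by omega, fun j hj => ?_⟩
      have h1 := hle (0 + j) (b - 1) (by omega) (by omega)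
      have h2 := hγ2 (0 + j) (by omega)
      omega
    · by_cases hB : s (e a (2 * b - 1)).1 + 1 ≤ s (e a (3 * b - 1)).1
      · refine ⟨b, s (e a (3 * b - 1)).1, by omega, fun j hj => ?_⟩
        have h1 := hle (b - 1) (b + j) (by omega) (by omega)
        have h2 := hle (b + j) (2 * b - 1) (by omega) (by omega)
        have h3 := (hmem a (by omega) (b + j) (by omega)).2
        omega
      · refine ⟨2 * b, s (e a (3 * b - 1)).1 + 1, by omega, fun j hj => ?_⟩
        have h1 := hle (2 * b - 1) (2 * b + j) (by omega) (by omega)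
        have h2 := hle (2 * b + j) (3 * b - 1) (by omega) (by omega)
        have h3 := (hmem a (by omega) (2 * b + j) (by omega)).2
        omega
  obtain ⟨c, t, hc, hct⟩ := key
  obtain ⟨p, q, ⟨τ, hτ1, hτ2⟩, hz⟩ := st_complete (TwQ S b) _ t (hct 0 (by omega)).2
  have hτs : ∀ j, j < b → s (τ j).1 = t ∧ s (τ j).2 = t := by
    intro j hj
    have h1 := hτ1 j hj
    have h2 := hS _ h1.1
    exact ⟨hz _ h1.2.1 (by omega), hz _ (by omega) h1.2.2⟩
  have hnest : ∀ i, i < a + 1 → ∀ j, j < b → ∀ j', j' < b → Ns (e i (c + j)) (τ j') := by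
    intro i hi j hj j' hj'
    have hlast : Ns (e a (c + j)) (τ j') := by
      have h1 := hct j hj
      have h2 := hτs j' hj'
      constructor
      · by_contra hcon
        have := smono (show (τ j').1 ≤ (e a (c + j)).1 by omega)
        omega
      · by_contra hcon
        have := smono (show (e a (c + j)).2 ≤ (τ j').2 by omega)
        omega
    rcases Nat.lt_or_ge i a with h | h
    · exact Ns_trans (he3 i a h (by omega) (c + j) (by omega) (c + j) (by omega)) hlast
    · have : i = a := by omega
      rw [this]; exact hlast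
  refine ⟨fun i j => if i < a + 1 then e i (c + j) else τ j, ?_, ?_, ?_⟩
  · intro i hi j hj
    by_cases h : i < a + 1
    · simp only [h, if_true]; exact (hmem i h (c + j) (by omega)).1
    · simp only [h, if_false]; exact (hτ1 j hj).1
  · intro i hi j j' hj hj'
    by_cases h : i < a + 1
    · simp only [h, if_true]; exact he2 i h _ _ (by omega) (by omega)
    · simp only [h, if_false]; exact hτ2 j j' hj hj'
  · intro i i' hi hi' j hj j' hj'
    have h : i < a + 1 := by omega
    by_cases h' : i' < a + 1
    · simp only [h, h', if_true]; exact he3 i i' hi h' _ (by omega) _ (by omega)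
    · simp only [h, h', if_true, if_false]; exact hnest i h j hj j' hj'

theorem main_ind (k : ℕ) : ∀ a b : ℕ, ∃ H, ∀ S : Finset Ed, Wf S → ¬ Fam Cr Ns S (a + 1) b →
    ¬ Fam Cr Ns S k k → ¬ Fam Ns Cr S k k → SQ S H := by
  classical
  obtain ⟨B0, hB0⟩ := sep_thm k
  intro a
  induction a with
  | zero =>
      intro b
      obtain ⟨H, hH⟩ := circ' b
      refine ⟨H, fun S hS h1 _ _ => ?_⟩
      obtain ⟨c, hc1, hc2⟩ := hH S hS (by
        rintro ⟨f, hf1, hf2⟩
        exact h1 ⟨fun _ j => f j, fun _ _ j hj => hf1 j hj, fun _ _ j j' hj hj' => hf2 j j' hj hj',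
          fun i i' hi hi' => by omega⟩)
      exact SQ.of_cr c hc1 hc2
  | succ a ih =>
      intro b
      obtain ⟨H', hH'⟩ := ih (3 * b)
      obtain ⟨H0, hH0⟩ := circ' b
      refine ⟨H0 + 1 + (B0 + B0) + H', fun S hS h1 h2 h3 => ?_⟩
      rcases Nat.eq_zero_or_pos b with hb | hb
      · subst hb
        exact absurd ⟨fun _ _ => (0, 0), by omega, by omega, by omega⟩ h1
      set s := st (TwQ S b) with hs
      have smono : ∀ {x y : ℕ}, x ≤ y → s x ≤ s y := fun h => st_mono (TwQ S b) h
      have hWs : ∀ {T : Finset Ed}, T ⊆ S → Wf T := fun h => hS.mono h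
      -- inner edges
      have hIn : SQ (S.filter (fun e => s e.1 = s e.2 ∧ s (e.2 + 1) = s e.2)) H0 := by
        obtain ⟨c, hc1, hc2⟩ := hH0 _ (hWs (Finset.filter_subset (fun e => s e.1 = s e.2 ∧ s (e.2 + 1) = s e.2) S)) (by
          rintro ⟨f, hf1, hf2⟩
          have hf1' : ∀ i, i < b → f i ∈ S ∧ s (f i).1 = s (f i).2 ∧ s ((f i).2 + 1) = s (f i).2 :=
            fun i hi => Finset.mem_filter.1 (hf1 i hi)
          have hall : ∀ i, i < b → s (f i).1 = s (f (b - 1)).2 ∧ (f i).2 ≤ (f (b - 1)).2 := by
            intro i hi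
            rcases Nat.lt_or_ge i (b - 1) with h | h
            · have hcr := hf2 i (b - 1) h (by omega)
              have e1 := smono hcr.1.le
              have e2 := smono hcr.2.1.le
              have e3 := hf1' i hi
              have e4 := hf1' (b - 1) (by omega)
              exact ⟨by omega, hcr.2.2.le⟩
            · have : i = b - 1 := by omega
              rw [this]
              exact ⟨(hf1' (b - 1) (by omega)).2.1, le_rfl⟩
          have hQ : TwQ S b (bg (TwQ S b) (f (b - 1)).2) ((f (b - 1)).2 + 1) := by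
            refine ⟨f, fun i hi => ⟨(hf1' i hi).1, ?_, ?_⟩, hf2⟩
            · exact bg_le_of_st_eq (TwQ S b) (hall i hi).1
            · have := (hall i hi).2; omega
          have h4 := (st_pos (TwQ S b) hQ).1
          have h5 := (hf1' (b - 1) (by omega)).2.2
          rw [hs] at h5
          omega)
        exact SQ.of_cr c hc1 hc2
      -- star edges
      have hStar : SQ (S.filter (fun e => s e.1 = s e.2 ∧ s (e.2 + 1) ≠ s e.2)) 1 := by
        refine SQ.of_cr (fun _ => 0) (fun _ _ => by norm_num) ?_
        intro e he f hf hcr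
        rw [Finset.mem_filter] at he hf
        have e1 := smono hcr.1.le
        have e2 := smono hcr.2.1.le
        have e3 := smono (show e.2 + 1 ≤ f.2 from hcr.2.2)
        have e4 := (st_step (TwQ S b) e.2).1
        rw [← hs] at e4
        omega
      -- near edges
      have hNear : ∀ p, SQ (S.filter (fun e => s e.2 = s e.1 + 1 ∧ s e.1 % 2 = p)) B0 := by
        intro p
        refine SQ.blocks (fun e => s e.1) ?_ ?_
        · intro e he f hf hne
          rw [Finset.mem_filter] at he hf
          beta_reduce at hne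
          constructor
          · intro hcr
            have e1 := smono hcr.1.le
            have e2 := smono hcr.2.1.le
            omega
          · intro hns
            have e1 := smono hns.1.le
            have e2 := smono hns.2.le
            omega
        · intro i
          have hsub : ((S.filter (fun e => s e.2 = s e.1 + 1 ∧ s e.1 % 2 = p)).filter
              (fun e => s e.1 = i)) ⊆ S := (Finset.filter_subset _ _).trans (Finset.filter_subset _ _)
          refine hB0 _ ?_ (fun h => h2 (h.mono hsub)) (fun h => h3 (h.mono hsub))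
          intro e he f hf
          simp only [Finset.mem_filter] at he hf
          by_contra hcon
          have := smono (show f.2 ≤ e.1 by omega)
          omega
      -- long edges
      have hLong : SQ (S.filter (fun e => s e.1 + 2 ≤ s e.2)) H' := by
        have hsub : S.filter (fun e => s e.1 + 2 ≤ s e.2) ⊆ S := Finset.filter_subset _ _
        refine hH' _ (hWs hsub) ?_ (fun h => h2 (h.mono hsub)) (fun h => h3 (h.mono hsub))
        intro h
        exact h1 (long_fam S hS a b hb h)
      refine SQ.add (SQ.add (SQ.add hIn hStar (U := S.filter (fun e => s e.1 = s e.2)) ?_)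
        (SQ.add (hNear 0) (hNear 1) (U := S.filter (fun e => s e.2 = s e.1 + 1)) ?_)
        (U := S.filter (fun e => s e.2 < s e.1 + 2)) ?_) hLong ?_
      · intro e he
        simp only [Finset.mem_filter] at he ⊢
        by_cases h : s (e.2 + 1) = s e.2
        · left; exact ⟨he.1, he.2, h⟩
        · right; exact ⟨he.1, he.2, h⟩
      · intro e he
        simp only [Finset.mem_filter] at he ⊢
        rcases Nat.mod_two_eq_zero_or_one (s e.1) with h | h
        · left; exact ⟨he.1, he.2, h⟩
        · right; exact ⟨he.1, he.2, h⟩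
      · intro e he
        simp only [Finset.mem_filter] at he ⊢
        have := smono (hS e he.1).le
        rcases Nat.lt_or_ge (s e.1) (s e.2) with h | h
        · right; exact ⟨he.1, by omega⟩
        · left; exact ⟨he.1, by omega⟩
      · intro e he
        simp only [Finset.mem_filter]
        rcases Nat.lt_or_ge (s e.2) (s e.1 + 2) with h | h
        · left; exact ⟨he, h⟩
        · right; exact ⟨he, h⟩

theorem main_thm (k : ℕ) (hk : 1 ≤ k) : ∃ H, ∀ S : Finset Ed, Wf S →
    ¬ Fam Cr Ns S k k → ¬ Fam Ns Cr S k k → SQ S H := by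
  obtain ⟨H, hH⟩ := main_ind k (k - 1) k
  refine ⟨H, fun S hS h1 h2 => hH S hS ?_ h1 h2⟩
  rwa [Nat.sub_add_cancel hk]

end Pool.Agent.R973.MX
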